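import Pool.Agent.helper5.IH.Spec2

set_option autoImplicit false

namespace Pool.Agent.IH
open Finset CT SYM

section TR2s
variable {V : Type} [Fintype V] [DecidableEq V]

open Classical in
/-- The neighbours of `v`. -/
noncomputable def TR2_N (G : SimpleGraph V) (v : V) : Finset V :=
  univ.filter fun w => G.Adj v w

/-- The hypotheses of the theorem. -/
structure TR2_H (G : SimpleGraph V) (T : Fin 4 → Finset V) : Prop where
  four : FourRegular G
  card : 7 ≤ Fintype.card V
  cl : ∀ i, G.IsNClique 3 (T i)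
  one : ∀ i j, i ≠ j → (T i ∩ T j).card ≤ 1
  meet : ∀ i, i ≠ 0 → (T 0 ∩ T i).Nonempty

variable {G : SimpleGraph V} {T : Fin 4 → Finset V}

omit [DecidableEq V] in
lemma TR2_mem_N {v w : V} : w ∈ TR2_N G v ↔ G.Adj v w := by
  unfold TR2_N
  simp

lemma TR2_Ncard (h : TR2_H G T) (v : V) : (TR2_N G v).card = 4 := by
  rw [← h.four v]
  exact (Nat.subtype_card _ (fun w => TR2_mem_N)).symm

lemma TR2_uniq (h : TR2_H G T) {i j : Fin 4} {v w : V} (hvw : v ≠ w) (hvi : v ∈ T i)
    (hwi : w ∈ T i) (hvj : v ∈ T j) (hwj : w ∈ T j) : i = j := by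
  by_contra hij
  have h1 := h.one i j hij
  have h2 : ({v, w} : Finset V) ⊆ T i ∩ T j := by
    intro z hz
    rw [Finset.mem_insert, Finset.mem_singleton] at hz
    rw [Finset.mem_inter]
    rcases hz with rfl | rfl
    · exact ⟨hvi, hvj⟩
    · exact ⟨hwi, hwj⟩
  have h3 := Finset.card_le_card h2
  rw [Finset.card_pair hvw] at h3
  omega

lemma TR2_sub (h : TR2_H G T) {i : Fin 4} {v : V} (hv : v ∈ T i) :
    (T i).erase v ⊆ TR2_N G v := by
  intro w hw
  rw [Finset.mem_erase] at hw
  rw [TR2_mem_N]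
  exact (h.cl i).isClique hv hw.2 (Ne.symm hw.1)

lemma TR2_er (h : TR2_H G T) {i : Fin 4} {v : V} (hv : v ∈ T i) :
    ((T i).erase v).card = 2 := by
  rw [Finset.card_erase_of_mem hv, (h.cl i).card_eq]

lemma TR2_three (h : TR2_H G T) {i j k : Fin 4} (hij : i ≠ j) (hik : i ≠ k) (hjk : j ≠ k)
    {v : V} (hi : v ∈ T i) (hj : v ∈ T j) (hk : v ∈ T k) : False := by
  have d : ∀ i j, i ≠ j → v ∈ T i → v ∈ T j → Disjoint ((T i).erase v) ((T j).erase v) := by
    intro i j hij hi hj
    rw [Finset.disjoint_left]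
    intro w hw hw'
    rw [Finset.mem_erase] at hw hw'
    exact hij (TR2_uniq h hw.1 hw.2 hi hw'.2 hj)
  have h1 : (((T i).erase v ∪ (T j).erase v) ∪ (T k).erase v).card = 6 := by
    rw [Finset.card_union_of_disjoint, Finset.card_union_of_disjoint (d i j hij hi hj),
      TR2_er h hi, TR2_er h hj, TR2_er h hk]
    rw [Finset.disjoint_union_left]
    exact ⟨d i k hik hi hk, d j k hjk hj hk⟩
  have h2 : ((T i).erase v ∪ (T j).erase v) ∪ (T k).erase v ⊆ TR2_N G v :=
    Finset.union_subset (Finset.union_subset (TR2_sub h hi) (TR2_sub h hj)) (TR2_sub h hk)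
  have h3 := Finset.card_le_card h2
  rw [h1, TR2_Ncard h] at h3
  omega

lemma TR2_out (h : TR2_H G T) {i : Fin 4} {v : V} (hv : v ∈ T i) :
    ∃ w, G.Adj v w ∧ w ∉ T i := by
  obtain ⟨w, hw, hw'⟩ : ∃ w ∈ TR2_N G v, w ∉ (T i).erase v := by
    apply Finset.exists_mem_notMem_of_card_lt_card
    rw [TR2_er h hv, TR2_Ncard h]
    norm_num
  rw [TR2_mem_N] at hw
  refine ⟨w, hw, fun hwi => hw' ?_⟩
  rw [Finset.mem_erase]
  exact ⟨(G.ne_of_adj hw).symm, hwi⟩

lemma TR2_in (h : TR2_H G T) {i : Fin 4} {v : V} (hv : v ∈ T i) :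
    ∃ w, G.Adj v w ∧ w ∈ T i := by
  obtain ⟨w, hw⟩ : ((T i).erase v).Nonempty := by
    rw [← Finset.card_pos, TR2_er h hv]
    norm_num
  exact ⟨w, TR2_mem_N.mp (TR2_sub h hv hw), Finset.mem_of_mem_erase hw⟩

lemma TR2_unc (h : TR2_H G T) : ∃ u w, G.Adj u w ∧ ∀ i, ¬ (u ∈ T i ∧ w ∈ T i) := by
  have h1 : ∃ v, ∀ i j, v ∈ T i → v ∈ T j → i = j := by
    by_contra hc
    push Not at hc
    have h2 : ∀ v, 2 ≤ ((univ : Finset (Fin 4)).filter fun i => v ∈ T i).card := by
      intro v
      obtain ⟨i, j, hi, hj, hij⟩ := hc v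
      rw [← Finset.card_pair hij]
      apply Finset.card_le_card
      intro z hz
      rw [Finset.mem_insert, Finset.mem_singleton] at hz
      rw [Finset.mem_filter]
      rcases hz with rfl | rfl
      · exact ⟨Finset.mem_univ _, hi⟩
      · exact ⟨Finset.mem_univ _, hj⟩
    have h3 : ∑ v : V, ((univ : Finset (Fin 4)).filter fun i => v ∈ T i).card =
        ∑ i : Fin 4, (T i).card := by
      have e1 : ∀ v : V, ((univ : Finset (Fin 4)).filter fun i => v ∈ T i).card =
          ∑ i : Fin 4, if v ∈ T i then 1 else 0 := fun v => Finset.card_filter _ _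
      have e2 : ∀ i : Fin 4, (T i).card = ∑ v : V, if v ∈ T i then 1 else 0 := by
        intro i
        rw [← Finset.card_filter]
        simp
      simp_rw [e1, e2]
      exact Finset.sum_comm
    have h4 : ∑ i : Fin 4, (T i).card = 12 := by
      rw [Finset.sum_congr rfl fun i _ => (h.cl i).card_eq]
      simp
    have h5 := Finset.card_nsmul_le_sum (univ : Finset V)
      (fun v => ((univ : Finset (Fin 4)).filter fun i => v ∈ T i).card) 2 (fun v _ => h2 v)
    rw [smul_eq_mul, h3, h4, Finset.card_univ] at h5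
    have := h.card
    omega
  obtain ⟨v, hv⟩ := h1
  by_cases hex : ∃ i, v ∈ T i
  · obtain ⟨i, hi⟩ := hex
    obtain ⟨w, hw, hwi⟩ := TR2_out h hi
    refine ⟨v, w, hw, ?_⟩
    rintro j ⟨hvj, hwj⟩
    have hij := hv i j hi hvj
    subst hij
    exact hwi hwj
  · obtain ⟨w, hw⟩ : (TR2_N G v).Nonempty := by
      rw [← Finset.card_pos, TR2_Ncard h]
      norm_num
    exact ⟨v, w, TR2_mem_N.mp hw, fun i hi => hex ⟨i, hi.1⟩⟩

/-- The complete graph on `T`. -/
def TR2_K (T : Finset V) : SimpleGraph V where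
  Adj u w := u ≠ w ∧ u ∈ T ∧ w ∈ T
  symm := ⟨fun _ _ h => ⟨h.1.symm, h.2.2, h.2.1⟩⟩
  loopless := ⟨fun _ h => h.1 rfl⟩

lemma TR2_K_even (h : TR2_H G T) (i : Fin 4) (v : V) :
    Even (Nat.card {w // (TR2_K (T i)).Adj v w}) := by
  by_cases hv : v ∈ T i
  · have e : Nat.card {w // (TR2_K (T i)).Adj v w} = ((T i).erase v).card := by
      apply Nat.subtype_card
      intro w
      rw [Finset.mem_erase]
      exact ⟨fun hw => ⟨Ne.symm hw.1, hv, hw.2⟩, fun hw => ⟨Ne.symm hw.1, hw.2.2⟩⟩
    rw [e, TR2_er h hv]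
    exact even_two
  · have e : Nat.card {w // (TR2_K (T i)).Adj v w} = (∅ : Finset V).card := by
      apply Nat.subtype_card
      intro w
      constructor
      · intro hw
        exact absurd hw (Finset.notMem_empty w)
      · intro hw
        exact absurd hw.2.1 hv
    rw [e, Finset.card_empty]
    exact Even.zero

lemma TR2_disj (hTLO : TLO_stmt) (h : TR2_H G T)
    (hc : ∃ v, ¬ C2Is (decompletion G v) (ZMod 2) 0) {i j : Fin 4} (hi : i ≠ 0) (hj : j ≠ 0)
    (hij : i ≠ j) : Disjoint (T i) (T j) := by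
  by_contra hcon
  rw [Finset.not_disjoint_iff] at hcon
  obtain ⟨v, hvi, hvj⟩ := hcon
  have hv0 : v ∉ T 0 := fun hv0 => TR2_three h hij hi hj hvi hvj hv0
  let I : Fin 3 → Fin 4 := ![0, i, j]
  have hI : Function.Injective I := by
    intro x y hxy
    fin_cases x <;> fin_cases y <;> simp_all [I]
  have hU1 : (T 0 ∪ T i).card ≤ 5 := by
    have h1 := Finset.card_union_add_card_inter (T 0) (T i)
    have h2 : 0 < (T 0 ∩ T i).card := Finset.card_pos.mpr (h.meet i hi)
    rw [(h.cl 0).card_eq, (h.cl i).card_eq] at h1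
    omega
  have hU2 : ((T 0 ∪ T i) ∪ T j).card ≤ 6 := by
    have h1 := Finset.card_union_add_card_inter (T 0 ∪ T i) (T j)
    obtain ⟨a, ha⟩ := h.meet j hj
    rw [Finset.mem_inter] at ha
    have hav : a ≠ v := by
      rintro rfl
      exact hv0 ha.1
    have h2 : ({a, v} : Finset V) ⊆ (T 0 ∪ T i) ∩ T j := by
      intro z hz
      rw [Finset.mem_insert, Finset.mem_singleton] at hz
      rw [Finset.mem_inter, Finset.mem_union]
      rcases hz with rfl | rfl
      · exact ⟨Or.inl ha.1, ha.2⟩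
      · exact ⟨Or.inr hvi, hvj⟩
    have h3 := Finset.card_le_card h2
    rw [Finset.card_pair hav] at h3
    rw [(h.cl j).card_eq] at h1
    omega
  have hU3 : Nat.card {x // ∃ (k : Fin 3) (w : V), (TR2_K (T (I k))).Adj x w} ≤ 6 := by
    classical
    have e : Nat.card {x // ∃ (k : Fin 3) (w : V), (TR2_K (T (I k))).Adj x w} =
        (univ.filter fun x => ∃ (k : Fin 3) (w : V), (TR2_K (T (I k))).Adj x w).card := by
      apply Nat.subtype_card
      intro x
      simp
    rw [e]
    refine le_trans (Finset.card_le_card ?_) hU2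
    intro x hx
    rw [Finset.mem_filter] at hx
    obtain ⟨_, k, w, hk⟩ := hx
    have hxk : x ∈ T (I k) := hk.2.1
    rw [Finset.mem_union, Finset.mem_union]
    fin_cases k
    · exact Or.inl (Or.inl hxk)
    · exact Or.inl (Or.inr hxk)
    · exact Or.inr hxk
  have key := hTLO V G 3 (fun k => TR2_K (T (I k))) h.four h.card hc (by norm_num)
    (by
      intro k u w huw
      exact (h.cl (I k)).isClique huw.2.1 huw.2.2 huw.1)
    (by
      intro k
      have h3 : 1 < (T (I k)).card := by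
        rw [(h.cl (I k)).card_eq]
        norm_num
      obtain ⟨u, hu, w, hw, huw⟩ := Finset.one_lt_card.mp h3
      exact ⟨u, w, huw, hu, hw⟩)
    (fun k v => TR2_K_even h (I k) v)
    (by
      rintro k l hkl u w ⟨h1, h2⟩
      exact hkl (hI (TR2_uniq h h1.1 h1.2.1 h1.2.2 h2.2.1 h2.2.2)))
    (by
      obtain ⟨u, w, huw, hn⟩ := TR2_unc h
      exact ⟨u, w, huw, fun k hk => hn (I k) hk.2⟩)
  have h7 := h.card
  rcases key with key | key
  · omega
  · omega

open Classical in
/-- The class of an edge. -/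
noncomputable def TR2_c (T : Fin 4 → Finset V) : Sym2 V → Fin 5 := fun e =>
  if h : ∃ i : Fin 4, ∀ z ∈ e, z ∈ T i then h.choose.castSucc else Fin.last 4

lemma TR2_c_iff (h : TR2_H G T) {u w : V} (huw : u ≠ w) (i : Fin 4) :
    TR2_c T s(u, w) = i.castSucc ↔ u ∈ T i ∧ w ∈ T i := by
  unfold TR2_c
  constructor
  · intro hi
    split_ifs at hi with hex
    · have h1 := hex.choose_spec
      have h2 : hex.choose = i := Fin.castSucc_injective _ hi
      rw [h2] at h1
      exact ⟨h1 u (Sym2.mem_mk_left u w), h1 w (Sym2.mem_mk_right u w)⟩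
    · exact absurd hi.symm (Fin.castSucc_ne_last i)
  · intro hi
    have hex : ∃ i : Fin 4, ∀ z ∈ s(u, w), z ∈ T i := by
      refine ⟨i, ?_⟩
      intro z hz
      rw [Sym2.mem_iff] at hz
      rcases hz with rfl | rfl
      · exact hi.1
      · exact hi.2
    rw [dif_pos hex]
    have h1 := hex.choose_spec
    congr 1
    exact TR2_uniq h huw (h1 u (Sym2.mem_mk_left u w)) (h1 w (Sym2.mem_mk_right u w)) hi.1 hi.2

lemma TR2_c_last {u w : V} :
    TR2_c T s(u, w) = Fin.last 4 ↔ ∀ i, ¬ (u ∈ T i ∧ w ∈ T i) := by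
  unfold TR2_c
  constructor
  · intro hi j hj
    have hex : ∃ i : Fin 4, ∀ z ∈ s(u, w), z ∈ T i := by
      refine ⟨j, ?_⟩
      intro z hz
      rw [Sym2.mem_iff] at hz
      rcases hz with rfl | rfl
      · exact hj.1
      · exact hj.2
    rw [dif_pos hex] at hi
    exact Fin.castSucc_ne_last _ hi
  · intro hi
    rw [dif_neg]
    rintro ⟨j, hj⟩
    exact hi j ⟨hj u (Sym2.mem_mk_left u w), hj w (Sym2.mem_mk_right u w)⟩

lemma TR2_part (h : TR2_H G T) : EvenPartition G 5 (TR2_c T) := by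
  classical
  have hcard : ∀ (i : Fin 5) (v : V), Nat.card {w // G.Adj v w ∧ TR2_c T s(v, w) = i} =
      ((TR2_N G v).filter fun w => TR2_c T s(v, w) = i).card := by
    intro i v
    apply Nat.subtype_card
    intro w
    rw [Finset.mem_filter, TR2_mem_N]
  have hsmall : ∀ (i : Fin 4) (v : V),
      Even ((TR2_N G v).filter fun w => TR2_c T s(v, w) = i.castSucc).card := by
    intro i v
    by_cases hv : v ∈ T i
    · have e : ((TR2_N G v).filter fun w => TR2_c T s(v, w) = i.castSucc) = (T i).erase v := by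
        ext w
        rw [Finset.mem_filter, Finset.mem_erase, TR2_mem_N]
        constructor
        · rintro ⟨h1, h2⟩
          rw [TR2_c_iff h (G.ne_of_adj h1)] at h2
          exact ⟨(G.ne_of_adj h1).symm, h2.2⟩
        · rintro ⟨h1, h2⟩
          refine ⟨(h.cl i).isClique hv h2 (Ne.symm h1), ?_⟩
          rw [TR2_c_iff h (Ne.symm h1)]
          exact ⟨hv, h2⟩
      rw [e, TR2_er h hv]
      exact even_two
    · have e : ((TR2_N G v).filter fun w => TR2_c T s(v, w) = i.castSucc) = ∅ := by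
        rw [Finset.filter_eq_empty_iff]
        intro w hw hcw
        rw [TR2_mem_N] at hw
        rw [TR2_c_iff h (G.ne_of_adj hw)] at hcw
        exact hv hcw.1
      rw [e, Finset.card_empty]
      exact Even.zero
  constructor
  · intro i
    refine Fin.lastCases ?_ ?_ i
    · obtain ⟨u, w, huw, hn⟩ := TR2_unc h
      exact ⟨u, w, huw, TR2_c_last.mpr hn⟩
    · intro j
      have h3 : 1 < (T j).card := by
        rw [(h.cl j).card_eq]
        norm_num
      obtain ⟨u, hu, w, hw, huw⟩ := Finset.one_lt_card.mp h3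
      exact ⟨u, w, (h.cl j).isClique hu hw huw, (TR2_c_iff h huw j).mpr ⟨hu, hw⟩⟩
  · intro i v
    rw [hcard]
    refine Fin.lastCases ?_ ?_ i
    · have h1 : (TR2_N G v).card = ∑ k : Fin 5,
          ((TR2_N G v).filter fun w => TR2_c T s(v, w) = k).card :=
        Finset.card_eq_sum_card_fiberwise (fun w _ => Finset.mem_coe.mpr (Finset.mem_univ _))
      rw [Fin.sum_univ_castSucc, TR2_Ncard h] at h1
      have h2 : Even (∑ k : Fin 4,
          ((TR2_N G v).filter fun w => TR2_c T s(v, w) = k.castSucc).card) :=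
        Finset.even_sum _ fun k _ => hsmall k v
      obtain ⟨r, hr⟩ := h2
      rw [hr] at h1
      exact ⟨2 - r, by omega⟩
    · intro j
      exact hsmall j v

lemma TR2_shared (h : TR2_H G T) (v : V) : Shared G (TR2_c T) v ↔ ∃ i, v ∈ T i := by
  constructor
  · rintro ⟨w, w', hw, hw', hne⟩
    by_contra hcon
    push Not at hcon
    apply hne
    rw [TR2_c_last.mpr fun i hi => hcon i hi.1, TR2_c_last.mpr fun i hi => hcon i hi.1]
  · rintro ⟨i, hi⟩
    obtain ⟨w, hw, hwi⟩ := TR2_in h hi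
    obtain ⟨w', hw', hwi'⟩ := TR2_out h hi
    refine ⟨w, w', hw, hw', ?_⟩
    rw [(TR2_c_iff h (G.ne_of_adj hw) i).mpr ⟨hi, hwi⟩]
    intro he
    exact hwi' ((TR2_c_iff h (G.ne_of_adj hw') i).mp he.symm).2

lemma TR2_met (h : TR2_H G T) {i : Fin 4} {x : V} (hx : x ∈ T i)
    (huni : ∀ j, x ∈ T j → j = i) (k : Fin 5) :
    (∃ w, G.Adj x w ∧ TR2_c T s(x, w) = k) ↔ k = i.castSucc ∨ k = Fin.last 4 := by
  constructor
  · rintro ⟨w, hw, rfl⟩
    by_cases hl : TR2_c T s(x, w) = Fin.last 4
    · exact Or.inr hl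
    · left
      rw [TR2_c_last] at hl
      push Not at hl
      obtain ⟨j, hj⟩ := hl
      have hji := huni j hj.1
      subst hji
      exact (TR2_c_iff h (G.ne_of_adj hw) j).mpr hj
  · rintro (rfl | rfl)
    · obtain ⟨w, hw, hwi⟩ := TR2_in h hx
      exact ⟨w, hw, (TR2_c_iff h (G.ne_of_adj hw) i).mpr ⟨hx, hwi⟩⟩
    · obtain ⟨w, hw, hwi⟩ := TR2_out h hx
      refine ⟨w, hw, TR2_c_last.mpr ?_⟩
      rintro j ⟨hxj, hwj⟩
      rw [huni j hxj] at hwj
      exact hwi hwj

end TR2s

theorem TR2 (hTLO : TLO_stmt) (hTP2 : TP2_stmt) : TR2_stmt := by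
  intro V _ _ G T hfour hcard hcl hone hmeet
  by_contra hcon
  push Not at hcon
  have h : TR2_H G T := ⟨hfour, hcard, hcl, hone, hmeet⟩
  have hd : ∀ i j : Fin 4, i ≠ 0 → j ≠ 0 → i ≠ j → Disjoint (T i) (T j) :=
    fun i j hi hj hij => TR2_disj hTLO h hcon hi hj hij
  have d12 := hd 1 2 (by decide) (by decide) (by decide)
  have d13 := hd 1 3 (by decide) (by decide) (by decide)
  have d23 := hd 2 3 (by decide) (by decide) (by decide)
  -- the union
  have hUc : ((T 1 ∪ T 2) ∪ T 3).card = 9 := by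
    rw [Finset.card_union_of_disjoint, Finset.card_union_of_disjoint d12,
      (hcl 1).card_eq, (hcl 2).card_eq, (hcl 3).card_eq]
    rw [Finset.disjoint_union_left]
    exact ⟨d13, d23⟩
  have hT0 : T 0 ⊆ (T 1 ∪ T 2) ∪ T 3 := by
    obtain ⟨a, ha⟩ := hmeet 1 (by decide)
    obtain ⟨b, hb⟩ := hmeet 2 (by decide)
    obtain ⟨c, hc⟩ := hmeet 3 (by decide)
    rw [Finset.mem_inter] at ha hb hc
    have hab : a ≠ b := by
      rintro rfl
      exact Finset.disjoint_left.mp d12 ha.2 hb.2
    have hac : a ≠ c := by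
      rintro rfl
      exact Finset.disjoint_left.mp d13 ha.2 hc.2
    have hbc : b ≠ c := by
      rintro rfl
      exact Finset.disjoint_left.mp d23 hb.2 hc.2
    have h1 : ({a, b, c} : Finset V) = T 0 := by
      apply Finset.eq_of_subset_of_card_le
      · intro z hz
        simp only [Finset.mem_insert, Finset.mem_singleton] at hz
        rcases hz with rfl | rfl | rfl
        · exact ha.1
        · exact hb.1
        · exact hc.1
      · rw [(hcl 0).card_eq, Finset.card_eq_three.mpr ⟨a, b, c, hab, hac, hbc, rfl⟩]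
    rw [← h1]
    intro z hz
    simp only [Finset.mem_insert, Finset.mem_singleton] at hz
    rw [Finset.mem_union, Finset.mem_union]
    rcases hz with rfl | rfl | rfl
    · exact Or.inl (Or.inl ha.2)
    · exact Or.inl (Or.inr hb.2)
    · exact Or.inr hc.2
  have hU : ∀ v, (∃ i, v ∈ T i) ↔ v ∈ (T 1 ∪ T 2) ∪ T 3 := by
    intro v
    constructor
    · rintro ⟨i, hi⟩
      fin_cases i
      · exact hT0 hi
      · exact Finset.mem_union_left _ (Finset.mem_union_left _ hi)
      · exact Finset.mem_union_left _ (Finset.mem_union_right _ hi)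
      · exact Finset.mem_union_right _ hi
    · intro hv
      rw [Finset.mem_union, Finset.mem_union] at hv
      rcases hv with (hv | hv) | hv
      · exact ⟨1, hv⟩
      · exact ⟨2, hv⟩
      · exact ⟨3, hv⟩
  have h9 : Nat.card {v // Shared G (TR2_c T) v} = 9 := by
    rw [← hUc]
    apply Nat.subtype_card
    intro v
    rw [TR2_shared h, hU]
  obtain ⟨u, u', huu⟩ := hTP2 V G 5 (TR2_c T) hfour hcard hcon (TR2_part h) (by rw [h9])
  have hfin : ∀ i : Fin 4, i ≠ 0 → u ∈ T i ∨ u' ∈ T i := by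
    intro i hi
    obtain ⟨a, ha⟩ := hmeet i hi
    rw [Finset.mem_inter] at ha
    have h2 : 1 < ((T i).erase a).card := by
      rw [TR2_er h ha.2]
      norm_num
    obtain ⟨x, hx, y, hy, hxy⟩ := Finset.one_lt_card.mp h2
    have huni : ∀ z ∈ (T i).erase a, ∀ j, z ∈ T j → j = i := by
      intro z hz j hzj
      rw [Finset.mem_erase] at hz
      by_contra hji
      by_cases hj0 : j = 0
      · rw [hj0] at hzj
        exact hi (TR2_uniq h hz.1 hz.2 ha.2 hzj ha.1)
      · exact Finset.disjoint_left.mp (hd j i hj0 hi hji) hzj hz.2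
    have hxi := Finset.mem_of_mem_erase hx
    have hyi := Finset.mem_of_mem_erase hy
    have hpar : Par G (TR2_c T) x y := by
      refine ⟨(TR2_shared h x).mpr ⟨i, hxi⟩, (TR2_shared h y).mpr ⟨i, hyi⟩, ?_⟩
      intro k
      rw [TR2_met h hxi (huni x hx) k, TR2_met h hyi (huni y hy) k]
    rcases huu x y hxy hpar with e | e | e | e
    · left
      rw [← e]
      exact hxi
    · right
      rw [← e]
      exact hxi
    · left
      rw [← e]
      exact hyi
    · right
      rw [← e]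
      exact hyi
  have c12 : ∀ z, z ∈ T 1 → z ∈ T 2 → False :=
    fun z hz hz' => Finset.disjoint_left.mp d12 hz hz'
  have c13 : ∀ z, z ∈ T 1 → z ∈ T 3 → False :=
    fun z hz hz' => Finset.disjoint_left.mp d13 hz hz'
  have c23 : ∀ z, z ∈ T 2 → z ∈ T 3 → False :=
    fun z hz hz' => Finset.disjoint_left.mp d23 hz hz'
  rcases hfin 1 (by decide) with h1 | h1 <;> rcases hfin 2 (by decide) with h2 | h2 <;>
    rcases hfin 3 (by decide) with h3 | h3 <;>
    first
      | exact c12 _ h1 h2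
      | exact c13 _ h1 h3
      | exact c23 _ h2 h3

end Pool.Agent.IH
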