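import Pool.Agent.helper5.IH.Spec

set_option autoImplicit false

namespace Pool.Agent.IH
open Finset CT SYM

theorem FCC_bool {a b c : Bool} (h : a ≠ b) (hb : b = c) : a ≠ c := by
  rw [← hb]; exact h

theorem FCC_bool2 {a b c : Bool} (h : a ≠ b) (hb : b ≠ c) : a = c := by
  cases a <;> cases b <;> cases c <;> simp_all

open Classical in
/-- the transition system of the colour `c` -/
noncomputable def FCC_tau {V : Type} {G : SimpleGraph V} (ρ : G.Dart → G.Dart) (f : G.Dart → Bool)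
    (c : Bool) (d : G.Dart) : G.Dart := if f d = c then ρ (ρ (ρ d)) else ρ d

section

variable {V : Type} {G : SimpleGraph V} {ρ : G.Dart → G.Dart} {f : G.Dart → Bool}

theorem FCC_f (hf : FaceCol ρ f) (d : G.Dart) : f (ρ d) ≠ f d := by
  have h1 := hf.1 d.symm
  rw [SimpleGraph.Dart.symm_symm] at h1
  rw [h1]
  exact hf.2 d

theorem FCC_pos {c : Bool} {d : G.Dart} (h : f d = c) :
    FCC_tau ρ f c d = ρ (ρ (ρ d)) := by
  unfold FCC_tau
  rw [if_pos h]

theorem FCC_neg {c : Bool} {d : G.Dart} (h : f d ≠ c) : FCC_tau ρ f c d = ρ d := by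
  unfold FCC_tau
  rw [if_neg h]

theorem FCC_f3 (hf : FaceCol ρ f) (d : G.Dart) : f (ρ (ρ (ρ d))) ≠ f d := by
  have h1 := FCC_f hf d
  have h2 := FCC_f hf (ρ d)
  have h3 := FCC_f hf (ρ (ρ d))
  have h4 : f (ρ (ρ d)) = f d := FCC_bool2 h2 h1
  rw [h4] at h3
  exact h3

theorem FCC_ts (hρ : Rot ρ) (hf : FaceCol ρ f) (c : Bool) : IsTS (FCC_tau ρ f c) := by
  have hne1 : ∀ d, ρ d ≠ d := by
    intro d h
    apply hρ.two d
    rw [h, h]
  refine ⟨?_, ?_, ?_⟩
  · intro d
    by_cases h : f d = c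
    · rw [FCC_pos h, FCC_neg (FCC_bool (FCC_f3 hf d) h), hρ.four]
    · rw [FCC_neg h, FCC_pos (FCC_bool2 (FCC_f hf d) h), hρ.four]
  · intro d
    by_cases h : f d = c
    · rw [FCC_pos h, hρ.fst, hρ.fst, hρ.fst]
    · rw [FCC_neg h, hρ.fst]
  · intro d
    by_cases h : f d = c
    · rw [FCC_pos h]
      intro h1
      have h2 := hρ.four d
      rw [h1] at h2
      exact hne1 d h2
    · rw [FCC_neg h]
      exact hne1 d

theorem FCC_face (ρ : G.Dart → G.Dart) (d : G.Dart) :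
    (Quot.mk _ (ρ d.symm) : Face ρ) = Quot.mk _ d := by
  symm
  apply Quot.sound
  rfl

/-- the dart of the colour `c` on the edge of `d` -/
noncomputable def FCC_d (f : G.Dart → Bool) (c : Bool) (d : G.Dart) : G.Dart := by
  classical
  exact if f d = c then d else d.symm

theorem FCC_dc (hf : FaceCol ρ f) (c : Bool) (d : G.Dart) : f (FCC_d f c d) = c := by
  unfold FCC_d
  by_cases h : f d = c
  · simp only [if_pos h]
    exact h
  · simp only [if_neg h]
    exact FCC_bool2 (hf.2 d) h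

theorem FCC_dpos {c : Bool} {d : G.Dart} (h : f d = c) : FCC_d f c d = d := by
  unfold FCC_d
  rw [if_pos h]

theorem FCC_dneg {c : Bool} {d : G.Dart} (h : f d ≠ c) : FCC_d f c d = d.symm := by
  unfold FCC_d
  rw [if_neg h]

/-- circuits to faces -/
noncomputable def FCC_map (hρ : Rot ρ) (hf : FaceCol ρ f) (c : Bool) :
    Cir (fun d : G.Dart => d.symm) (FCC_tau ρ f c) → Face ρ :=
  Quot.lift (fun d => (Quot.mk _ (FCC_d f c d) : Face ρ)) (by
    rintro d d' (h | h)
    · rw [h]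
      by_cases h1 : f d = c
      · have h2 : f d.symm ≠ c := FCC_bool (hf.2 d) h1
        rw [FCC_dpos h1, FCC_dneg h2, SimpleGraph.Dart.symm_symm]
      · have h2 : f d.symm = c := FCC_bool2 (hf.2 d) h1
        rw [FCC_dneg h1, FCC_dpos h2]
    · rw [h]
      by_cases h1 : f d = c
      · rw [FCC_pos h1, FCC_dpos h1, FCC_dneg (FCC_bool (FCC_f3 hf d) h1)]
        have h3 := FCC_face ρ (ρ (ρ (ρ d))).symm
        rw [SimpleGraph.Dart.symm_symm, hρ.four] at h3
        exact h3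
      · rw [FCC_neg h1, FCC_dneg h1, FCC_dpos (FCC_bool2 (FCC_f hf d) h1)]
        have h3 := FCC_face ρ d.symm
        rw [SimpleGraph.Dart.symm_symm] at h3
        exact h3.symm)

theorem FCC_cir1 (τ : G.Dart → G.Dart) (d : G.Dart) :
    cir (fun d : G.Dart => d.symm) τ d.symm = cir (fun d : G.Dart => d.symm) τ d :=
  (Quot.sound (r := fun d d' : G.Dart => d' = d.symm ∨ d' = τ d) (Or.inl rfl)).symm

theorem FCC_cir2 (τ : G.Dart → G.Dart) (d : G.Dart) :
    cir (fun d : G.Dart => d.symm) τ (τ d) = cir (fun d : G.Dart => d.symm) τ d :=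
  (Quot.sound (r := fun d d' : G.Dart => d' = d.symm ∨ d' = τ d) (Or.inr rfl)).symm

theorem FCC_cird (τ : G.Dart → G.Dart) (c : Bool) (d : G.Dart) :
    cir (fun d : G.Dart => d.symm) τ (FCC_d f c d) = cir (fun d : G.Dart => d.symm) τ d := by
  by_cases h : f d = c
  · rw [FCC_dpos h]
  · rw [FCC_dneg h, FCC_cir1]

/-- faces to circuits -/
noncomputable def FCC_inv (hf : FaceCol ρ f) (c : Bool) :
    Face ρ → Option (Cir (fun d : G.Dart => d.symm) (FCC_tau ρ f c)) := by
  classical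
  exact Quot.lift (fun d => if f d = c then
    some (cir (fun d : G.Dart => d.symm) (FCC_tau ρ f c) d) else none) (by
    intro d d' h
    have h1 : f d' = f d := by rw [h]; exact hf.1 d
    by_cases h2 : f d = c
    · have h3 : f d' = c := h1.trans h2
      have h4 : f d.symm ≠ c := FCC_bool (hf.2 d) h2
      simp only [if_pos h2, if_pos h3]
      have h5 : d' = FCC_tau ρ f c d.symm := by rw [FCC_neg h4, h]
      rw [h5, FCC_cir2, FCC_cir1]
    · have h3 : f d' ≠ c := by rw [h1]; exact h2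
      simp only [if_neg h2, if_neg h3])

theorem FCC_inv_mk (hf : FaceCol ρ f) (c : Bool) (d : G.Dart) (h : f d = c) :
    FCC_inv hf c (Quot.mk _ d) = some (cir (fun d : G.Dart => d.symm) (FCC_tau ρ f c) d) := by
  classical
  show (if f d = c then
    some (cir (fun d : G.Dart => d.symm) (FCC_tau ρ f c) d) else none) = _
  rw [if_pos h]

end

theorem FCC : FCC_stmt := by
  intro V _ _ G ρ f hρ hf c
  refine ⟨FCC_tau ρ f c, FCC_ts hρ hf c, ?_⟩
  unfold nci gav nav nfc
  apply Nat.card_congr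
  have hin : ∀ C : Cir (fun d : G.Dart => d.symm) (FCC_tau ρ f c),
      ∃ d : G.Dart, (Quot.mk _ d : Face ρ) = FCC_map hρ hf c C ∧ f d = c := by
    intro C
    obtain ⟨d, rfl⟩ := Quot.exists_rep C
    exact ⟨FCC_d f c d, rfl, FCC_dc hf c d⟩
  refine Equiv.ofBijective (fun C => ⟨FCC_map hρ hf c C.1, hin C.1⟩) ⟨?_, ?_⟩
  · rintro ⟨C, hC⟩ ⟨C', hC'⟩ h
    obtain ⟨d, rfl⟩ := Quot.exists_rep C
    obtain ⟨d', rfl⟩ := Quot.exists_rep C'
    have h1 : (Quot.mk _ (FCC_d f c d) : Face ρ) = Quot.mk _ (FCC_d f c d') :=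
      congrArg Subtype.val h
    have h2 := congrArg (FCC_inv hf c) h1
    rw [FCC_inv_mk hf c _ (FCC_dc hf c d), FCC_inv_mk hf c _ (FCC_dc hf c d'), FCC_cird,
      FCC_cird] at h2
    apply Subtype.ext
    exact Option.some.inj h2
  · rintro ⟨F, d, rfl, hd⟩
    refine ⟨⟨Quot.mk _ d, fun _ h => h.elim⟩, ?_⟩
    apply Subtype.ext
    show (Quot.mk _ (FCC_d f c d) : Face ρ) = Quot.mk _ d
    rw [FCC_dpos hd]

end Pool.Agent.IH
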